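import Mathlib

/-!
# Combinatorial lemmas for the theorem that weird numbers have bounded abundancy index

* `greedy`: filling an interval greedily with weights, each at most the length of the interval already
  covered.
* `residues`: subset sums of `g - 1` integers coprime to `g` cover all residues modulo `g`.
* `pairs`: a dense set of integers contains many disjoint pairs with a common small difference.
-/

set_option autoImplicit false

namespace Pool.Agent.Helper83.Weird

open Finset

/-- Greedy filling. -/
theorem greedy {ι : Type*} [DecidableEq ι] (w : ι → ℕ) (a b : ℕ) (hab : a ≤ b) :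
    ∀ (n : ℕ) (T : Finset ι), T.card = n →
      (∀ d ∈ T, w d ≤ (b - a) + 1 + ∑ d' ∈ T.filter (fun d' => w d' < w d), w d') →
      ∀ t, a ≤ t → t ≤ b + ∑ d ∈ T, w d →
        ∃ A ⊆ T, ∃ s, a ≤ s ∧ s ≤ b ∧ t = s + ∑ d ∈ A, w d := by
  intro n
  induction n with
  | zero =>
    intro T hT h t hat htb
    rw [Finset.card_eq_zero] at hT
    subst hT
    exact ⟨∅, by simp, t, hat, by simpa using htb, by simp⟩
  | succ n ih =>
    intro T hT h t hat htb
    have hne : T.Nonempty := by
      rw [← Finset.card_pos]; omega
    obtain ⟨d, hd, hmax⟩ := T.exists_max_image w hne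
    have hT' : (T.erase d).card = n := by rw [Finset.card_erase_of_mem hd, hT]; rfl
    have h' : ∀ d' ∈ T.erase d, w d' ≤ (b - a) + 1 +
        ∑ d'' ∈ (T.erase d).filter (fun d'' => w d'' < w d'), w d'' := by
      intro d' hd'
      have hd'T := Finset.mem_of_mem_erase hd'
      have e : (T.erase d).filter (fun d'' => w d'' < w d') =
          T.filter (fun d'' => w d'' < w d') := by
        ext x
        simp only [Finset.mem_filter, Finset.mem_erase]
        constructor
        · rintro ⟨⟨_, h1⟩, h2⟩; exact ⟨h1, h2⟩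
        · rintro ⟨h1, h2⟩
          refine ⟨⟨?_, h1⟩, h2⟩
          rintro rfl
          have := hmax d' hd'T
          omega
      rw [e]; exact h d' hd'T
    have hsum : ∑ x ∈ T, w x = w d + ∑ x ∈ T.erase d, w x := (Finset.add_sum_erase T w hd).symm
    by_cases hc : t ≤ b + ∑ x ∈ T.erase d, w x
    · obtain ⟨A, hA, s, h1, h2, h3⟩ := ih _ hT' h' t hat hc
      exact ⟨A, hA.trans (Finset.erase_subset _ _), s, h1, h2, h3⟩
    · push Not at hc
      have h4 : w d ≤ (b - a) + 1 + ∑ x ∈ T.erase d, w x := by
        refine (h d hd).trans ?_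
        apply Nat.add_le_add_left
        apply Finset.sum_le_sum_of_subset
        intro x hx
        rw [Finset.mem_filter] at hx
        rw [Finset.mem_erase]
        refine ⟨?_, hx.1⟩
        rintro rfl
        exact lt_irrefl _ hx.2
      obtain ⟨A, hA, s, h1, h2, h3⟩ := ih _ hT' h' (t - w d) (by omega) (by omega)
      have hdA : d ∉ A := fun hh => (Finset.notMem_erase d T) (hA hh)
      refine ⟨insert d A, ?_, s, h1, h2, ?_⟩
      · rw [Finset.insert_subset_iff]
        exact ⟨hd, hA.trans (Finset.erase_subset _ _)⟩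
      · rw [Finset.sum_insert hdA]
        omega

/-- the residues modulo `g` of the subset sums -/
def resid (g : ℕ) (U : Finset ℕ) : Finset (ZMod g) :=
  U.powerset.image (fun A => ((∑ a ∈ A, a : ℕ) : ZMod g))

theorem zero_mem_resid (g : ℕ) (U : Finset ℕ) : (0 : ZMod g) ∈ resid g U := by
  unfold resid
  rw [Finset.mem_image]
  exact ⟨∅, by simp, by simp⟩

theorem resid_card (g : ℕ) (hg : 0 < g) (U : Finset ℕ) :
    (∀ u ∈ U, Nat.Coprime u g) → min g (U.card + 1) ≤ (resid g U).card := by
  have : NeZero g := ⟨by omega⟩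
  classical
  induction U using Finset.induction_on with
  | empty =>
    intro _
    have : 0 < (resid g ∅).card := Finset.card_pos.2 ⟨0, zero_mem_resid g ∅⟩
    simp only [Finset.card_empty]
    omega
  | insert u U hu ih =>
    intro h
    have ih' := ih (fun v hv => h v (Finset.mem_insert_of_mem hv))
    have hsub : resid g U ⊆ resid g (insert u U) := by
      unfold resid
      apply Finset.image_subset_image
      exact Finset.powerset_mono.2 (Finset.subset_insert _ _)
    have hadd : ∀ x ∈ resid g U, x + (u : ZMod g) ∈ resid g (insert u U) := by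
      intro x hx
      unfold resid at hx ⊢
      rw [Finset.mem_image] at hx ⊢
      obtain ⟨A, hA, rfl⟩ := hx
      rw [Finset.mem_powerset] at hA
      refine ⟨insert u A, ?_, ?_⟩
      · rw [Finset.mem_powerset]
        exact Finset.insert_subset_insert _ hA
      · rw [Finset.sum_insert (fun hh => hu (hA hh))]
        push_cast
        ring
    by_cases hall : ∀ x ∈ resid g U, x + (u : ZMod g) ∈ resid g U
    · -- then everything is covered
      have hn : ∀ n : ℕ, ((n : ZMod g) * u) ∈ resid g U := by
        intro n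
        induction n with
        | zero => simpa using zero_mem_resid g U
        | succ n ihn =>
          have := hall _ ihn
          have e : ((n + 1 : ℕ) : ZMod g) * u = (n : ZMod g) * u + u := by push_cast; ring
          rw [e]; exact this
      have huniv : resid g U = Finset.univ := by
        rw [Finset.eq_univ_iff_forall]
        intro x
        have hu1 : Nat.Coprime u g := h u (Finset.mem_insert_self _ _)
        have hunit : ((u : ZMod g)) * (u : ZMod g)⁻¹ = 1 := ZMod.coe_mul_inv_eq_one u hu1
        have := hn (x * (u : ZMod g)⁻¹).val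
        rw [ZMod.natCast_zmod_val] at this
        have e : x * (u : ZMod g)⁻¹ * (u : ZMod g) = x := by
          rw [mul_assoc, mul_comm ((u : ZMod g)⁻¹), hunit, mul_one]
        rwa [e] at this
      have : (resid g U).card = g := by
        rw [huniv, Finset.card_univ, ZMod.card]
      have h2 := Finset.card_le_card hsub
      omega
    · push Not at hall
      obtain ⟨x, hx, hx'⟩ := hall
      have hss : resid g U ⊂ resid g (insert u U) := by
        rw [Finset.ssubset_iff_of_subset hsub]
        exact ⟨_, hadd x hx, hx'⟩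
      have h2 := Finset.card_lt_card hss
      rw [Finset.card_insert_of_notMem hu]
      omega

/-- subset sums of `g - 1` numbers coprime to `g` cover all residues -/
theorem residues (g : ℕ) (hg : 0 < g) (U : Finset ℕ) (hU : ∀ u ∈ U, Nat.Coprime u g)
    (hc : g ≤ U.card + 1) (c : ℕ) : ∃ A ⊆ U, (∑ a ∈ A, a) ≡ c [MOD g] := by
  have : NeZero g := ⟨by omega⟩
  have h1 := resid_card g hg U hU
  rw [min_eq_left hc] at h1
  have h2 : resid g U = Finset.univ := by
    rw [← Finset.card_eq_iff_eq_univ, ZMod.card]
    refine le_antisymm ?_ h1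
    have := Finset.card_le_univ (resid g U)
    rwa [ZMod.card] at this
  have h3 : (c : ZMod g) ∈ resid g U := by rw [h2]; exact Finset.mem_univ _
  unfold resid at h3
  rw [Finset.mem_image] at h3
  obtain ⟨A, hA, hAc⟩ := h3
  rw [Finset.mem_powerset] at hA
  exact ⟨A, hA, (ZMod.natCast_eq_natCast_iff _ _ _).1 hAc⟩

/-- many disjoint pairs with a common difference -/
theorem pairs {ι : Type*} [DecidableEq ι] (D : Finset ι) (w : ι → ℕ)
    (inj : ∀ x ∈ D, ∀ y ∈ D, w x = w y → x = y) (Y G : ℕ) (hG : 0 < G)
    (hw : ∀ s ∈ D, w s < Y) (hM : 2 * (Y / G + 1) ≤ D.card) :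
    ∃ g, 0 < g ∧ g < G ∧ ∃ (J : Finset ℕ) (s t : ℕ → ι),
      (∀ j ∈ J, s j ∈ D ∧ t j ∈ D ∧ w (t j) = w (s j) + g ∧ w (s j) / G = j ∧ w (t j) / G = j) ∧
      D.card ≤ 2 * G * (G * J.card) := by
  classical
  obtain ⟨B, hB⟩ : ∃ B, B = Y / G + 1 := ⟨_, rfl⟩
  rw [← hB] at hM
  have hB1 : 1 ≤ B := by rw [hB]; exact Nat.succ_le_succ (Nat.zero_le _)
  have hmaps : ∀ s ∈ D, w s / G ∈ Finset.range B := by
    intro s hs
    rw [Finset.mem_range, hB]
    exact Nat.lt_succ_of_le (Nat.div_le_div_right (c := G) (hw s hs).le)
  have hfib : ∀ j, (D.filter (fun s => w s / G = j)).card ≤ G := by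
    intro j
    have : (D.filter (fun s => w s / G = j)).card ≤ (Finset.Ico (j * G) (j * G + G)).card := by
      apply Finset.card_le_card_of_injOn w
      · intro s hs
        have hs' := Finset.mem_filter.1 hs
        have h1 := Nat.div_add_mod (w s) G
        have h2 := Nat.mod_lt (w s) hG
        have h3 : G * (w s / G) = j * G := by rw [hs'.2, mul_comm]
        simp only [Finset.coe_Ico, Set.mem_Ico]
        constructor <;> omega
      · intro x hx y hy hxy
        have hx' := Finset.mem_filter.1 hx
        have hy' := Finset.mem_filter.1 hy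
        exact inj x hx'.1 y hy'.1 hxy
    rw [Nat.card_Ico] at this
    omega
  set J0 := (Finset.range B).filter (fun j => 2 ≤ (D.filter (fun s => w s / G = j)).card) with hJ0
  have hcard : D.card ≤ B + G * J0.card := by
    rw [Finset.card_eq_sum_card_fiberwise hmaps]
    have h1 : ∀ j ∈ Finset.range B, (D.filter (fun s => w s / G = j)).card ≤
        1 + (if 2 ≤ (D.filter (fun s => w s / G = j)).card then G else 0) := by
      intro j _
      split_ifs with h
      · have := hfib j; omega
      · omega
    refine (Finset.sum_le_sum h1).trans ?_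
    rw [Finset.sum_add_distrib, ← Finset.sum_filter, Finset.sum_const, Finset.sum_const,
      Finset.card_range]
    simp only [smul_eq_mul, mul_one]
    rw [mul_comm]
  have hDpos : 0 < D.card := by omega
  have hcard2 : D.card ≤ 2 * (G * J0.card) := by omega
  -- choose the pairs
  have hch : ∀ j : ℕ, ∃ p : ι × ι, j ∈ J0 → (p.1 ∈ D ∧ p.2 ∈ D ∧ w p.1 < w p.2 ∧ w p.1 / G = j ∧
      w p.2 / G = j) := by
    intro j
    by_cases hj : j ∈ J0
    · have h2 := (Finset.mem_filter.1 hj).2
      obtain ⟨x, hx, y, hy, hxy⟩ := Finset.one_lt_card.1 (show 1 < _ from h2)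
      rw [Finset.mem_filter] at hx hy
      have hne : w x ≠ w y := fun e => hxy (inj x hx.1 y hy.1 e)
      rcases lt_or_gt_of_ne hne with h | h
      · exact ⟨(x, y), fun _ => ⟨hx.1, hy.1, h, hx.2, hy.2⟩⟩
      · exact ⟨(y, x), fun _ => ⟨hy.1, hx.1, h, hy.2, hx.2⟩⟩
    · have hDne : D.Nonempty := Finset.card_pos.1 hDpos
      obtain ⟨x, _⟩ := hDne
      exact ⟨(x, x), fun h => absurd h hj⟩
  choose p hp using hch
  set δ : ℕ → ℕ := fun j => w (p j).2 - w (p j).1 with hδ
  have hδG : ∀ j ∈ J0, δ j ∈ Finset.range G := by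
    intro j hj
    obtain ⟨_, _, h3, h4, h5⟩ := hp j hj
    rw [Finset.mem_range, hδ]
    have e1 := Nat.div_add_mod (w (p j).1) G
    have e2 := Nat.div_add_mod (w (p j).2) G
    have l1 := Nat.mod_lt (w (p j).1) hG
    have l2 := Nat.mod_lt (w (p j).2) hG
    rw [h4] at e1
    rw [h5] at e2
    show w (p j).2 - w (p j).1 < G
    omega
  have hpig : ∃ g ∈ Finset.range G, J0.card ≤ G * (J0.filter (fun j => δ j = g)).card := by
    by_contra hcon
    push Not at hcon
    have h1 : ∑ g ∈ Finset.range G, G * (J0.filter (fun j => δ j = g)).card <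
        ∑ g ∈ Finset.range G, J0.card := by
      apply Finset.sum_lt_sum_of_nonempty
      · exact ⟨0, Finset.mem_range.2 hG⟩
      · exact hcon
    rw [← Finset.mul_sum, ← Finset.card_eq_sum_card_fiberwise hδG, Finset.sum_const,
      Finset.card_range, smul_eq_mul] at h1
    exact lt_irrefl _ h1
  obtain ⟨g, hg, hgc⟩ := hpig
  rw [Finset.mem_range] at hg
  have hJ0pos : 0 < J0.card := by
    rcases Nat.eq_zero_or_pos J0.card with h | h
    · rw [h, Nat.mul_zero, Nat.mul_zero] at hcard2; omega
    · exact h
  have hJne : (J0.filter (fun j => δ j = g)).Nonempty := by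
    rw [← Finset.card_pos]
    rcases Nat.eq_zero_or_pos (J0.filter (fun j => δ j = g)).card with h | h
    · rw [h, Nat.mul_zero] at hgc; omega
    · exact h
  have hgpos : 0 < g := by
    obtain ⟨j, hj⟩ := hJne
    rw [Finset.mem_filter] at hj
    obtain ⟨_, _, h3, _, _⟩ := hp j hj.1
    have := hj.2
    rw [← this]
    show 0 < w (p j).2 - w (p j).1
    omega
  refine ⟨g, hgpos, hg, J0.filter (fun j => δ j = g), fun j => (p j).1, fun j => (p j).2, ?_, ?_⟩
  · intro j hj
    rw [Finset.mem_filter] at hj
    obtain ⟨h1, h2, h3, h4, h5⟩ := hp j hj.1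
    refine ⟨h1, h2, ?_, h4, h5⟩
    have h6 : w (p j).2 - w (p j).1 = g := hj.2
    show w (p j).2 = w (p j).1 + g
    omega
  · calc D.card ≤ 2 * (G * J0.card) := hcard2
      _ ≤ 2 * (G * (G * (J0.filter (fun j => δ j = g)).card)) := by gcongr
      _ = _ := by ring

end Pool.Agent.Helper83.Weird
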