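import Pool.Agent.Helper83.Weird.Main

/-!
# Weird numbers have bounded abundancy index
-/

set_option autoImplicit false

namespace Pool.Agent.Helper83.Weird

open Finset

theorem eight_sq_le (j : ℕ) (hj : 10 ≤ j) : 8 * j ^ 2 ≤ 2 ^ j := by
  induction j, hj using Nat.le_induction with
  | base => norm_num
  | succ j hj ih =>
    have h : 2 ^ (j + 1) = 2 * 2 ^ j := by ring
    rw [h]
    nlinarith

theorem selection (k₀ : ℕ) (hk₀ : 10 ≤ k₀) (P : Finset ℕ) (hP : ∀ p ∈ P, 2 ^ k₀ ≤ p)
    (hsum : 3 < ∑ p ∈ P, (1 : ℝ) / p) :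
    ∃ k, k₀ ≤ k ∧ 2 ≤ ∑ p ∈ P.filter (fun p => p < 2 ^ (k + 1)), (1 : ℝ) / p ∧
      2 ^ k ≤ k ^ 2 * ((P.filter (fun p => p < 2 ^ (k + 1))).filter (fun q => 2 ^ k ≤ q)).card ∧
      ∀ w ∈ P.filter (fun p => p < 2 ^ (k + 1)), w < 2 ^ k →
        (1 : ℝ) / w ≤ ∑ q ∈ (P.filter (fun p => p < 2 ^ (k + 1))).filter (fun q => w < q),
          (1 : ℝ) / q := by
  classical
  by_contra hcon
  push Not at hcon
  have hpos : ∀ p ∈ P, (0 : ℝ) < p := by
    intro p hp
    have h1 := hP p hp
    have h2 : 0 < 2 ^ k₀ := by positivity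
    exact_mod_cast h2.trans_le h1
  have hmain : ∀ k : ℕ, 1 ≤ k →
      ∑ p ∈ P.filter (fun p => p < 2 ^ (k + 1)), (1 : ℝ) / p ≤ 3 - 1 / k := by
    intro k
    induction k using Nat.strong_induction_on with
    | _ k ih =>
      intro hk1
      have hk1' : (1 : ℝ) ≤ k := by exact_mod_cast hk1
      have hk0' : (0 : ℝ) < k := by linarith
      have h1k : (1 : ℝ) / k ≤ 1 := by
        rw [div_le_one hk0']; exact hk1'
      rcases lt_or_ge k k₀ with hk | hk
      · have he : P.filter (fun p => p < 2 ^ (k + 1)) = ∅ := by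
          apply Finset.filter_eq_empty_iff.2
          intro p hp
          have h1 := hP p hp
          have h2 : 2 ^ (k + 1) ≤ 2 ^ k₀ := Nat.pow_le_pow_right (by norm_num) (by omega)
          omega
        rw [he, Finset.sum_empty]
        linarith
      · rcases lt_or_ge (∑ p ∈ P.filter (fun p => p < 2 ^ (k + 1)), (1 : ℝ) / p) 2 with h2 | h2
        · linarith
        · have h3 := hcon k hk h2
          obtain ⟨N, hN⟩ : ∃ N, N = P.filter (fun p => p < 2 ^ (k + 1)) := ⟨_, rfl⟩
          rw [← hN] at h2 h3 ⊢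
          have hNP : N ⊆ P := by rw [hN]; exact Finset.filter_subset _ _
          by_cases hd : 2 ^ k ≤ k ^ 2 * (N.filter (fun q => 2 ^ k ≤ q)).card
          · -- the tail condition fails
            obtain ⟨w, hw, hwk, hwt⟩ := h3 hd
            have hw0 : (0 : ℝ) < w := hpos w (hNP hw)
            have hwlow := hP w (hNP hw)
            -- w < 2 k ^ 2
            have hwsmall : w < 2 * k ^ 2 := by
              have s1 : ∑ q ∈ N.filter (fun q => 2 ^ k ≤ q), (1 : ℝ) / q ≤
                  ∑ q ∈ N.filter (fun q => w < q), (1 : ℝ) / q := by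
                apply Finset.sum_le_sum_of_subset_of_nonneg
                · intro q hq
                  rw [Finset.mem_filter] at hq ⊢
                  exact ⟨hq.1, by omega⟩
                · intro q hq _
                  have := hpos q (hNP (Finset.mem_filter.1 hq).1)
                  positivity
              have s2 : ((N.filter (fun q => 2 ^ k ≤ q)).card : ℝ) * (1 / (2 ^ (k + 1) : ℝ)) ≤
                  ∑ q ∈ N.filter (fun q => 2 ^ k ≤ q), (1 : ℝ) / q := by
                have := Finset.card_nsmul_le_sum (N.filter (fun q => 2 ^ k ≤ q))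
                  (fun q : ℕ => (1 : ℝ) / q) (1 / (2 ^ (k + 1) : ℝ)) (by
                    intro q hq
                    have hqN := (Finset.mem_filter.1 hq).1
                    have hq0 := hpos q (hNP hqN)
                    rw [hN, Finset.mem_filter] at hqN
                    apply one_div_le_one_div_of_le hq0
                    exact_mod_cast hqN.2.le)
                rwa [nsmul_eq_mul] at this
              have s3 : (1 : ℝ) / (2 * k ^ 2) ≤
                  ((N.filter (fun q => 2 ^ k ≤ q)).card : ℝ) * (1 / (2 ^ (k + 1) : ℝ)) := by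
                have h5 : ((2 : ℝ)) ^ k ≤ k ^ 2 * ((N.filter (fun q => 2 ^ k ≤ q)).card : ℝ) := by
                  exact_mod_cast hd
                rw [div_le_iff₀ (by positivity), pow_succ]
                have h6 : (0 : ℝ) < 2 ^ k := by positivity
                field_simp
                linarith
              have s4 : (1 : ℝ) / (2 * k ^ 2) < 1 / w := by linarith
              rw [one_div_lt_one_div (by positivity) hw0] at s4
              exact_mod_cast s4
            obtain ⟨j, hj1, hj2⟩ : ∃ j, 2 ^ j ≤ w ∧ w < 2 ^ (j + 1) :=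
              ⟨Nat.log 2 w, Nat.pow_log_le_self 2 (by
                have : 0 < 2 ^ k₀ := by positivity
                omega), Nat.lt_pow_succ_log_self (by norm_num) w⟩
            have hjk₀ : k₀ ≤ j := by
              have : 2 ^ k₀ < 2 ^ (j + 1) := lt_of_le_of_lt hwlow hj2
              have := (Nat.pow_lt_pow_iff_right (by norm_num : 1 < 2)).1 this
              omega
            have hjk : j < k := by
              have : 2 ^ j < 2 ^ k := lt_of_le_of_lt hj1 hwk
              exact (Nat.pow_lt_pow_iff_right (by norm_num : 1 < 2)).1 this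
            have hIH := ih j hjk (by omega)
            have hsplit : ∑ p ∈ N, (1 : ℝ) / p ≤
                ∑ p ∈ P.filter (fun p => p < 2 ^ (j + 1)), (1 : ℝ) / p + 1 / w := by
              rw [← Finset.sum_filter_add_sum_filter_not N (fun q => w < q)]
              have t1 : ∑ p ∈ N.filter (fun q => ¬ w < q), (1 : ℝ) / p ≤
                  ∑ p ∈ P.filter (fun p => p < 2 ^ (j + 1)), (1 : ℝ) / p := by
                apply Finset.sum_le_sum_of_subset_of_nonneg
                · intro q hq
                  rw [Finset.mem_filter] at hq ⊢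
                  exact ⟨hNP hq.1, by omega⟩
                · intro q hq _
                  have := hpos q (Finset.mem_filter.1 hq).1
                  positivity
              linarith
            have hj10 : 10 ≤ j := hk₀.trans hjk₀
            have h8 := eight_sq_le j hj10
            have hk2j : 2 * j ≤ k := by
              by_contra hlt
              push Not at hlt
              nlinarith
            have hw2j : 2 * j ≤ w := by nlinarith
            have hj0 : (0 : ℝ) < j := by
              have : 0 < j := by omega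
              exact_mod_cast this
            have i1 : (1 : ℝ) / k ≤ 1 / (2 * j) := by
              apply one_div_le_one_div_of_le (by positivity)
              exact_mod_cast hk2j
            have i2 : (1 : ℝ) / w ≤ 1 / (2 * j) := by
              apply one_div_le_one_div_of_le (by positivity)
              exact_mod_cast hw2j
            have i3 : (1 : ℝ) / (2 * j) + 1 / (2 * j) = 1 / j := by field_simp; norm_num
            linarith
          · -- density fails
            push Not at hd
            have hk2 : 2 ≤ k := by omega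
            obtain ⟨k', rfl⟩ : ∃ k', k = k' + 1 := ⟨k - 1, by omega⟩
            have hIH := ih k' (by omega) (by omega)
            have hk'0 : (0 : ℝ) < k' := by
              have : 0 < k' := by omega
              exact_mod_cast this
            have hsplit : ∑ p ∈ N, (1 : ℝ) / p ≤
                ∑ p ∈ P.filter (fun p => p < 2 ^ (k' + 1)), (1 : ℝ) / p +
                  1 / ((k' : ℝ) + 1) ^ 2 := by
              rw [← Finset.sum_filter_add_sum_filter_not N (fun q => 2 ^ (k' + 1) ≤ q)]
              have t1 : ∑ p ∈ N.filter (fun q => ¬ 2 ^ (k' + 1) ≤ q), (1 : ℝ) / p ≤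
                  ∑ p ∈ P.filter (fun p => p < 2 ^ (k' + 1)), (1 : ℝ) / p := by
                apply Finset.sum_le_sum_of_subset_of_nonneg
                · intro q hq
                  rw [Finset.mem_filter] at hq ⊢
                  exact ⟨hNP hq.1, by omega⟩
                · intro q hq _
                  have := hpos q (Finset.mem_filter.1 hq).1
                  positivity
              have t2 : ∑ p ∈ N.filter (fun q => 2 ^ (k' + 1) ≤ q), (1 : ℝ) / p ≤
                  ((N.filter (fun q => 2 ^ (k' + 1) ≤ q)).card : ℝ) *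
                    (1 / (2 ^ (k' + 1) : ℝ)) := by
                have := Finset.sum_le_card_nsmul (N.filter (fun q => 2 ^ (k' + 1) ≤ q))
                  (fun q : ℕ => (1 : ℝ) / q) (1 / (2 ^ (k' + 1) : ℝ)) (by
                    intro q hq
                    apply one_div_le_one_div_of_le (by positivity)
                    exact_mod_cast (Finset.mem_filter.1 hq).2)
                rwa [nsmul_eq_mul] at this
              have t3 : ((N.filter (fun q => 2 ^ (k' + 1) ≤ q)).card : ℝ) *
                    (1 / (2 ^ (k' + 1) : ℝ)) ≤ 1 / ((k' : ℝ) + 1) ^ 2 := by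
                have h5 : ((k' : ℝ) + 1) ^ 2 *
                    ((N.filter (fun q => 2 ^ (k' + 1) ≤ q)).card : ℝ) ≤ (2 : ℝ) ^ (k' + 1) := by
                  have := hd.le
                  exact_mod_cast this
                rw [le_div_iff₀ (by positivity)]
                have h6 : (0 : ℝ) < 2 ^ (k' + 1) := by positivity
                rw [mul_one_div, div_mul_eq_mul_div, div_le_one h6]
                linarith
              linarith
            have i1 : (1 : ℝ) / ((k' : ℝ) + 1) ^ 2 ≤ 1 / k' - 1 / ((k' : ℝ) + 1) := by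
              rw [div_sub_div _ _ hk'0.ne' (by positivity), div_le_div_iff₀ (by positivity)
                (by positivity)]
              nlinarith
            push_cast
            linarith
  -- conclusion
  have hfin := hmain (P.sup id + 1) (by omega)
  have he : P.filter (fun p => p < 2 ^ (P.sup id + 1 + 1)) = P := by
    apply Finset.filter_true_of_mem
    intro p hp
    have h1 : p ≤ P.sup id := Finset.le_sup (f := id) hp
    have h2 : P.sup id + 1 + 1 < 2 ^ (P.sup id + 1 + 1) := Nat.lt_two_pow_self
    omega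
  rw [he] at hfin
  have : (0 : ℝ) < 1 / ((P.sup id + 1 : ℕ) : ℝ) := by positivity
  linarith

theorem one_add_sum_le (s : Finset ℕ) :
    1 + ∑ p ∈ s, (1 : ℝ) / p ≤ ∏ p ∈ s, (1 + (1 : ℝ) / p) := by
  classical
  induction s using Finset.induction_on with
  | empty => simp
  | insert q s hq ih =>
    rw [Finset.sum_insert hq, Finset.prod_insert hq]
    have h1 : (0 : ℝ) ≤ 1 / q := by positivity
    have h2 : (0 : ℝ) ≤ ∑ p ∈ s, (1 : ℝ) / p := Finset.sum_nonneg (fun p _ => by positivity)
    nlinarith

theorem exists_k₀ : ∃ k₀ : ℕ, 10 ≤ k₀ ∧ ∀ k, k₀ ≤ k → 1769472 * (7 * k ^ 2) ^ 9 ≤ 2 ^ k := by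
  have h := tendsto_pow_const_div_const_pow_of_one_lt 18 (show (1 : ℝ) < 2 by norm_num)
  have h2 : ∀ᶠ k : ℕ in Filter.atTop, (k : ℝ) ^ 18 / 2 ^ k < 1 / (1769472 * 7 ^ 9) :=
    h.eventually_lt_const (by norm_num)
  obtain ⟨k₀, hk₀⟩ := Filter.eventually_atTop.1 h2
  refine ⟨max k₀ 10, le_max_right _ _, fun k hk => ?_⟩
  have h3 := hk₀ k ((le_max_left _ _).trans hk)
  rw [div_lt_div_iff₀ (by positivity) (by norm_num)] at h3
  have h4 : (1769472 * (7 * (k : ℝ) ^ 2) ^ 9) ≤ 2 ^ k := by
    nlinarith
  exact_mod_cast h4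

/-- A number with large sum of reciprocals of its large prime factors is semiperfect. -/
theorem semiperfect_of_sum : ∃ k₀ : ℕ, ∀ m : ℕ, 0 < m →
    3 < ∑ p ∈ m.primeFactors.filter (fun p => 2 ^ k₀ ≤ p), (1 : ℝ) / p →
    ∃ s ⊆ m.properDivisors, ∑ i ∈ s, i = m := by
  classical
  obtain ⟨k₀, hk₀, hbig⟩ := exists_k₀
  refine ⟨k₀, fun m hm hsum => ?_⟩
  obtain ⟨k, hk, h2, hdens, htail⟩ := selection k₀ hk₀ _
    (fun p hp => (Finset.mem_filter.1 hp).2) hsum
  obtain ⟨N, hN⟩ : ∃ N, N = (m.primeFactors.filter (fun p => 2 ^ k₀ ≤ p)).filter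
    (fun p => p < 2 ^ (k + 1)) := ⟨_, rfl⟩
  rw [← hN] at h2 hdens htail
  have hNm : N ⊆ m.primeFactors := by
    rw [hN]; exact (Finset.filter_subset _ _).trans (Finset.filter_subset _ _)
  have hNp : ∀ p ∈ N, p.Prime := fun p hp => Nat.prime_of_mem_primeFactors (hNm hp)
  have hNlt : ∀ p ∈ N, p < 2 * 2 ^ k := by
    intro p hp
    rw [hN, Finset.mem_filter] at hp
    have := hp.2
    rw [pow_succ] at this
    omega
  have hsig : 3 * pr N ≤ ∏ p ∈ N, (1 + p) := by
    have h3 : (3 * pr N : ℝ) ≤ ∏ p ∈ N, (1 + (p : ℝ)) := by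
      have e : ∏ p ∈ N, (1 + (p : ℝ)) = (pr N : ℝ) * ∏ p ∈ N, (1 + (1 : ℝ) / p) := by
        unfold pr
        push_cast
        rw [← Finset.prod_mul_distrib]
        apply Finset.prod_congr rfl
        intro p hp
        have : (p : ℝ) ≠ 0 := by
          have := (hNp p hp).pos
          positivity
        field_simp
        ring
      rw [e, mul_comm]
      have := one_add_sum_le N
      apply mul_le_mul_of_nonneg_left _ (Nat.cast_nonneg _)
      linarith
    exact_mod_cast h3
  obtain ⟨F, hF, hNF, hFsum⟩ := main_lemma (2 ^ k) (k ^ 2) (Nat.one_le_pow _ _ (by omega)) N hNp hNlt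
    hdens (hbig k hk) htail hsig
  have hprdvd : pr N ∣ m := by
    have h1 : pr N ∣ ∏ p ∈ m.primeFactors, p := Finset.prod_dvd_prod_of_subset _ _ _ hNm
    exact h1.trans (Nat.prod_primeFactors_dvd m)
  obtain ⟨c, hc⟩ := hprdvd
  have hc0 : 0 < c := by
    rcases Nat.eq_zero_or_pos c with h | h
    · rw [h, Nat.mul_zero] at hc; omega
    · exact h
  have hFN : ∀ s ∈ F, s ⊆ N := fun s hs => Finset.mem_powerset.1 (hF hs)
  refine ⟨F.image (fun s => c * pr s), ?_, ?_⟩
  · intro x hx
    rw [Finset.mem_image] at hx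
    obtain ⟨s, hs, rfl⟩ := hx
    rw [Nat.mem_properDivisors]
    have hsN := hFN s hs
    have hdvd : pr s ∣ pr N := Finset.prod_dvd_prod_of_subset _ _ _ hsN
    have hprN0 : 0 < pr N := pr_pos hNp
    refine ⟨?_, ?_⟩
    · rw [hc, mul_comm (pr N) c]
      exact Nat.mul_dvd_mul_left c hdvd
    · rw [hc, mul_comm (pr N) c]
      apply Nat.mul_lt_mul_of_pos_left _ hc0
      refine lt_of_le_of_ne (Nat.le_of_dvd hprN0 hdvd) ?_
      intro h
      have := pr_inj (fun p hp => hNp p (hsN hp)) hNp h
      rw [this] at hs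
      exact hNF hs
  · rw [Finset.sum_image]
    · rw [← Finset.mul_sum, hFsum, hc, mul_comm]
    · intro s hs t ht h
      have h' : c * pr s = c * pr t := h
      have := Nat.eq_of_mul_eq_mul_left hc0 h'
      exact pr_inj (fun p hp => hNp p (hFN s hs hp)) (fun p hp => hNp p (hFN t ht hp)) this

/-- the abundancy index is at most the product of `1 + 2 / p` over the prime factors -/
theorem sigma_le (m : ℕ) (hm : 0 < m) :
    ((∑ i ∈ m.divisors, i : ℕ) : ℝ) ≤ m * ∏ p ∈ m.primeFactors, (1 + (2 : ℝ) / p) := by
  have h1 := Nat.sum_divisors hm.ne'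
  rw [h1]
  have h2 : (m : ℝ) = ∏ p ∈ m.primeFactors, (p : ℝ) ^ m.factorization p := by
    have h := Nat.prod_factorization_pow_eq_self hm.ne'
    rw [Finsupp.prod, Nat.support_factorization] at h
    have h' := congrArg (fun x : ℕ => (x : ℝ)) h
    simp only [Nat.cast_prod, Nat.cast_pow] at h'
    exact h'.symm
  conv_rhs => rw [h2]
  rw [← Finset.prod_mul_distrib]
  push_cast
  apply Finset.prod_le_prod
  · intro p _
    exact Finset.sum_nonneg (fun k _ => by positivity)
  · intro p hp
    have hp2 : (2 : ℝ) ≤ p := by exact_mod_cast (Nat.prime_of_mem_primeFactors hp).two_le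
    have hp0 : (0 : ℝ) < p := by linarith
    have hne : (p : ℝ) ≠ 1 := by linarith
    rw [geom_sum_eq hne, div_le_iff₀ (by linarith)]
    have h3 : (0 : ℝ) < (p : ℝ) ^ m.factorization p := by positivity
    rw [pow_succ]
    have h4 : (p : ℝ) ^ m.factorization p * (1 + 2 / p) * (p - 1) =
        (p : ℝ) ^ m.factorization p * (p + (1 - 2 / p)) := by
      field_simp
      ring
    rw [h4]
    have h5 : 0 ≤ 1 - (2 : ℝ) / p := by
      rw [sub_nonneg, div_le_one hp0]; exact hp2
    nlinarith

theorem weird_bounded : ∃ C : ℝ, ∀ m : ℕ, 0 < m →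
      (¬ ∃ s ⊆ m.properDivisors, ∑ i ∈ s, i = m) →
      ((∑ i ∈ m.divisors, i : ℕ) : ℝ) / (m : ℝ) ≤ C := by
  obtain ⟨k₀, hk₀⟩ := semiperfect_of_sum
  refine ⟨2 ^ (2 ^ k₀) * Real.exp 6, fun m hm hns => ?_⟩
  have hm0 : (0 : ℝ) < m := by exact_mod_cast hm
  have hle : ∑ p ∈ m.primeFactors.filter (fun p => 2 ^ k₀ ≤ p), (1 : ℝ) / p ≤ 3 := by
    by_contra hcon
    push Not at hcon
    exact hns (hk₀ m hm hcon)
  rw [div_le_iff₀ hm0, mul_comm]
  refine (sigma_le m hm).trans ?_
  apply mul_le_mul_of_nonneg_left _ hm0.le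
  rw [← Finset.prod_filter_mul_prod_filter_not m.primeFactors (fun p => 2 ^ k₀ ≤ p), mul_comm]
  have hA : ∏ p ∈ m.primeFactors.filter (fun p => ¬ 2 ^ k₀ ≤ p), (1 + (2 : ℝ) / p) ≤
      2 ^ (2 ^ k₀) := by
    have h1 : ∏ p ∈ m.primeFactors.filter (fun p => ¬ 2 ^ k₀ ≤ p), (1 + (2 : ℝ) / p) ≤
        ∏ _p ∈ m.primeFactors.filter (fun p => ¬ 2 ^ k₀ ≤ p), (2 : ℝ) := by
      apply Finset.prod_le_prod
      · intro p _; positivity
      · intro p hp
        have hp' := Nat.prime_of_mem_primeFactors (Finset.mem_filter.1 hp).1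
        have hp2 : (2 : ℝ) ≤ p := by exact_mod_cast hp'.two_le
        have : (2 : ℝ) / p ≤ 1 := by rw [div_le_one (by linarith)]; exact hp2
        linarith
    rw [Finset.prod_const] at h1
    refine h1.trans ?_
    apply pow_le_pow_right₀ (by norm_num)
    have h2 : (m.primeFactors.filter (fun p => ¬ 2 ^ k₀ ≤ p)).card ≤
        (Finset.range (2 ^ k₀)).card := by
      apply Finset.card_le_card
      intro p hp
      rw [Finset.mem_range]
      have := (Finset.mem_filter.1 hp).2
      omega
    rwa [Finset.card_range] at h2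
  have hB : ∏ p ∈ m.primeFactors.filter (fun p => 2 ^ k₀ ≤ p), (1 + (2 : ℝ) / p) ≤
      Real.exp 6 := by
    have h1 : ∏ p ∈ m.primeFactors.filter (fun p => 2 ^ k₀ ≤ p), (1 + (2 : ℝ) / p) ≤
        ∏ p ∈ m.primeFactors.filter (fun p => 2 ^ k₀ ≤ p), Real.exp (2 / p) := by
      apply Finset.prod_le_prod
      · intro p _; positivity
      · intro p _
        have := Real.add_one_le_exp ((2 : ℝ) / p)
        linarith
    refine h1.trans ?_
    rw [← Real.exp_sum]
    apply Real.exp_le_exp.2
    have h2 : ∑ p ∈ m.primeFactors.filter (fun p => 2 ^ k₀ ≤ p), (2 : ℝ) / p =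
        2 * ∑ p ∈ m.primeFactors.filter (fun p => 2 ^ k₀ ≤ p), (1 : ℝ) / p := by
      rw [Finset.mul_sum]
      apply Finset.sum_congr rfl
      intro p _
      ring
    rw [h2]
    linarith
  apply mul_le_mul hA hB
  · exact Finset.prod_nonneg (fun p _ => by positivity)
  · positivity

end Pool.Agent.Helper83.Weird
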