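import Pool.Agent.Helper83.Weird.Seed

/-!
# The main lemma: a number with many prime factors near its largest one is semiperfect
-/

set_option autoImplicit false

namespace Pool.Agent.Helper83.Weird

open Finset

theorem sub_prod (X Y : ℕ) (hY : 1 ≤ Y) (s : Finset ℕ) :
    (∀ p ∈ s, p ≤ X) → Y < pr s → ∃ t ⊆ s, Y < pr t ∧ pr t ≤ Y * X := by
  classical
  induction s using Finset.induction_on with
  | empty =>
    intro _ h
    simp only [pr, Finset.prod_empty] at h
    omega
  | insert p s hps ih =>
    intro h1 h2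
    by_cases h3 : Y < pr s
    · obtain ⟨t, ht, h4, h5⟩ := ih (fun q hq => h1 q (Finset.mem_insert_of_mem hq)) h3
      exact ⟨t, ht.trans (Finset.subset_insert _ _), h4, h5⟩
    · push Not at h3
      refine ⟨insert p s, Finset.Subset.refl _, h2, ?_⟩
      unfold pr at h3 ⊢
      rw [Finset.prod_insert hps, mul_comm]
      exact Nat.mul_le_mul h3 (h1 p (Finset.mem_insert_self _ _))

theorem choose_two_ge (n : ℕ) : (n - 1) ^ 2 ≤ 2 * n.choose 2 := by
  have h := Nat.pow_le_choose (α := ℚ) 2 n
  have e : n + 1 - 2 = n - 1 := by omega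
  rw [e, show ((Nat.factorial 2 : ℕ) : ℚ) = 2 by norm_num [Nat.factorial],
    div_le_iff₀ (by norm_num)] at h
  have h2 : (((n - 1) ^ 2 : ℕ) : ℚ) ≤ ((2 * n.choose 2 : ℕ) : ℚ) := by
    push_cast
    linarith
  exact_mod_cast h2

theorem pr_union {s t : Finset ℕ} (h : Disjoint s t) : pr (s ∪ t) = pr s * pr t :=
  Finset.prod_union h

theorem pr_sdiff {s t : Finset ℕ} (h : t ⊆ s) : pr (s \ t) * pr t = pr s :=
  Finset.prod_sdiff h

theorem pr_insert {s : Finset ℕ} {w : ℕ} (h : w ∉ s) : pr (insert w s) = w * pr s :=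
  Finset.prod_insert h

theorem pr_erase {s : Finset ℕ} {q : ℕ} (h : q ∈ s) : q * pr (s.erase q) = pr s :=
  Finset.mul_prod_erase s (fun x => x) h

theorem pr_pos {s : Finset ℕ} (h : ∀ p ∈ s, p.Prime) : 0 < pr s :=
  Finset.prod_pos (fun p hp => (h p hp).pos)

theorem main_lemma (K L : ℕ) (hL : 1 ≤ L) (N : Finset ℕ) (hp : ∀ p ∈ N, p.Prime)
    (hlt : ∀ p ∈ N, p < 2 * K) (hQ : K ≤ L * (N.filter (fun q => K ≤ q)).card)
    (hKL : 1769472 * (7 * L) ^ 9 ≤ K)
    (htail : ∀ w ∈ N, w < K → (1 : ℝ) / w ≤ ∑ q ∈ N.filter (fun q => w < q), (1 : ℝ) / q)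
    (hsig : 3 * pr N ≤ ∏ p ∈ N, (1 + p)) :
    ∃ F ⊆ N.powerset, N ∉ F ∧ ∑ s ∈ F, pr s = pr N := by
  classical
  obtain ⟨Q, hQdef⟩ : ∃ Q, Q = N.filter (fun q => K ≤ q) := ⟨_, rfl⟩
  rw [← hQdef] at hQ
  have hQN : Q ⊆ N := by rw [hQdef]; exact Finset.filter_subset _ _
  have hQlo : ∀ q ∈ Q, K ≤ q := by
    intro q hq; rw [hQdef, Finset.mem_filter] at hq; exact hq.2
  -- numeric facts
  have hL9 : 40353607 * L ^ 9 = (7 * L) ^ 9 := by ring
  have hLL9 : L ≤ L ^ 9 := Nat.le_self_pow (by norm_num) L
  have hL29 : L ^ 2 ≤ L ^ 9 := Nat.pow_le_pow_right hL (by norm_num)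
  have hL91 : 1 ≤ L ^ 9 := Nat.one_le_pow _ _ hL
  have hKbig : 1769472 ≤ K := by rw [← hL9] at hKL; omega
  have hK1024 : 1024 * L ^ 2 ≤ K := by rw [← hL9] at hKL; omega
  have hKL2 : 10000 * L ≤ K := by rw [← hL9] at hKL; omega
  have hQcard : 10000 ≤ Q.card := by
    by_contra hcon
    push Not at hcon
    have : L * Q.card < L * 10000 := by
      apply Nat.mul_lt_mul_of_pos_left hcon (by omega)
    omega
  -- splitting
  obtain ⟨Q₁, hQ₁, hQ₁c⟩ := Finset.exists_subset_card_eq (s := Q) (n := Q.card / 2) (by omega)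
  obtain ⟨Q₂, hQ₂⟩ : ∃ Q₂, Q₂ = Q \ Q₁ := ⟨_, rfl⟩
  have hQ₂Q : Q₂ ⊆ Q := by rw [hQ₂]; exact Finset.sdiff_subset
  have hQ₂N : Q₂ ⊆ N := hQ₂Q.trans hQN
  have hQ₂c : Q.card ≤ 2 * Q₂.card := by
    rw [hQ₂, Finset.card_sdiff_of_subset hQ₁, hQ₁c]; omega
  have hdisj : Disjoint Q₁ Q₂ := by rw [hQ₂]; exact Finset.disjoint_sdiff
  have hseedcard : K ≤ (7 * L) * (Q₁.card - 2) := by
    have h1 : Q.card ≤ 7 * (Q₁.card - 2) := by omega
    calc K ≤ L * Q.card := hQ
      _ ≤ L * (7 * (Q₁.card - 2)) := Nat.mul_le_mul_left _ h1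
      _ = _ := by ring
  obtain ⟨S₀, a, b, hS₀, haS₀, hab, hfill⟩ := seed K (7 * L) Q₁ (fun q hq => hp q (hQN (hQ₁ hq)))
    (fun q hq => hQlo q (hQ₁ hq)) (fun q hq => hlt q (hQN (hQ₁ hq))) hseedcard (by omega) hKL
  -- large subsets of `Q₂`
  have hlarge : ∀ E ⊆ Q₂, Q₂.card ≤ 2 * E.card → 8 * K ≤ E.card.choose 2 ∧ 3 ≤ E.card := by
    intro E hE hEc
    have h3 : 3 ≤ E.card := by omega
    refine ⟨?_, h3⟩
    have h1 : K ≤ 8 * L * (E.card - 1) := by
      have h4 : Q.card ≤ 8 * (E.card - 1) := by omega
      calc K ≤ L * Q.card := hQ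
        _ ≤ L * (8 * (E.card - 1)) := Nat.mul_le_mul_left _ h4
        _ = _ := by ring
    have h2 : K ^ 2 ≤ 64 * L ^ 2 * (E.card - 1) ^ 2 := by
      calc K ^ 2 ≤ (8 * L * (E.card - 1)) ^ 2 := Nat.pow_le_pow_left h1 2
        _ = _ := by ring
    have h5 := choose_two_ge E.card
    have h6 : (64 * L ^ 2) * (16 * K) ≤ (64 * L ^ 2) * (2 * E.card.choose 2) := by
      calc (64 * L ^ 2) * (16 * K) = 1024 * L ^ 2 * K := by ring
        _ ≤ K * K := Nat.mul_le_mul_right _ hK1024
        _ = K ^ 2 := by ring
        _ ≤ 64 * L ^ 2 * (E.card - 1) ^ 2 := h2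
        _ ≤ _ := Nat.mul_le_mul_left _ h5
    have h7 := Nat.le_of_mul_le_mul_left h6 (by positivity)
    omega
  obtain ⟨T, hT⟩ : ∃ T, T = (N.powerset.erase N) \ S₀ := ⟨_, rfl⟩
  have hprN : ∀ s ⊆ N, ∀ p ∈ s, p.Prime := fun s hs p hps => hp p (hs hps)
  have hpos : ∀ s ⊆ N, 0 < pr s := fun s hs => pr_pos (hprN s hs)
  have hprle : ∀ s ⊆ N, pr s ≤ pr N := by
    intro s hs
    rw [← pr_sdiff hs]
    exact Nat.le_mul_of_pos_left _ (hpos _ Finset.sdiff_subset)
  -- membership in T
  have hmemT : ∀ s ⊆ N, ∀ s' ⊆ N, pr s' < pr s → (∃ q ∈ s', q ∈ Q₂) →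
      s' ∈ T.filter (fun d => pr d < pr s) := by
    intro s hs s' hs' hlt' hq
    rw [Finset.mem_filter, hT, Finset.mem_sdiff, Finset.mem_erase, Finset.mem_powerset]
    refine ⟨⟨⟨?_, hs'⟩, ?_⟩, hlt'⟩
    · rintro rfl
      have := hprle s hs
      omega
    · intro hmem
      obtain ⟨q, hq1, hq2⟩ := hq
      have := (hS₀ s' hmem).1 hq1
      exact (Finset.disjoint_left.1 hdisj) this hq2
  have hfam : ∀ s ⊆ N, ∀ {ι : Type} (I : Finset ι) (φ : ι → Finset ℕ),
      (∀ i ∈ I, φ i ∈ T.filter (fun d => pr d < pr s)) →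
      (∀ i ∈ I, ∀ j ∈ I, φ i = φ j → i = j) → pr s ≤ ∑ i ∈ I, pr (φ i) →
      pr s ≤ ∑ d ∈ T.filter (fun d => pr d < pr s), pr d := by
    intro s hs ι I φ h1 h2 h3
    refine h3.trans ?_
    rw [← Finset.sum_image (f := pr) (g := φ) (fun i hi j hj h => h2 i hi j hj h)]
    apply Finset.sum_le_sum_of_subset
    intro x hx
    rw [Finset.mem_image] at hx
    obtain ⟨i, hi, rfl⟩ := hx
    exact h1 i hi
  have hpre : ∀ e ⊆ Q₂, e.card = 2 → K ^ 2 ≤ pr e ∧ pr e ≤ 4 * K ^ 2 := by
    intro e he hc
    constructor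
    · rw [← hc]
      exact Finset.pow_card_le_prod _ _ _ (fun x hx => hQlo x (hQ₂Q (he hx)))
    · have : pr e ≤ (2 * K) ^ e.card :=
        Finset.prod_le_pow_card _ _ _ (fun x hx => (hlt x (hQ₂N (he hx))).le)
      rw [hc] at this
      calc pr e ≤ _ := this
        _ = _ := by ring
  -- the gap claim
  have hgap : ∀ s ⊆ N, s ≠ N → 4 * K ^ 2 < pr s →
      pr s ≤ ∑ d ∈ T.filter (fun d => pr d < pr s), pr d := by
    intro s hs hsne hbig
    by_cases hcase : Q₂.card ≤ 2 * (Q₂ \ s).card
    · -- many primes are missing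
      obtain ⟨hch, hc3⟩ := hlarge (Q₂ \ s) Finset.sdiff_subset hcase
      obtain ⟨t, hts, ht1, ht2⟩ := sub_prod (2 * K) (4 * K ^ 2) (by nlinarith) s
        (fun p hps => (hlt p (hs hps)).le) hbig
      have hdj : ∀ e ⊆ Q₂ \ s, Disjoint (s \ t) e := by
        intro e he
        rw [Finset.disjoint_left]
        intro x hx hxe
        exact (Finset.mem_sdiff.1 (he hxe)).2 (Finset.mem_sdiff.1 hx).1
      refine hfam s hs (Finset.powersetCard 2 (Q₂ \ s)) (fun e => (s \ t) ∪ e) ?_ ?_ ?_
      · intro e he
        rw [Finset.mem_powersetCard] at he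
        have he2 : e ⊆ Q₂ := he.1.trans Finset.sdiff_subset
        apply hmemT s hs
        · apply Finset.union_subset
          · exact Finset.sdiff_subset.trans hs
          · exact he2.trans hQ₂N
        · rw [pr_union (hdj e he.1), ← pr_sdiff hts]
          have h1 := (hpre e he2 he.2).2
          exact Nat.mul_lt_mul_of_pos_left (by omega) (hpos _ (Finset.sdiff_subset.trans hs))
        · have : e.Nonempty := by rw [← Finset.card_pos]; omega
          obtain ⟨q, hq⟩ := this
          exact ⟨q, Finset.mem_union_right _ hq, he2 hq⟩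
      · intro e he e' he' h
        rw [Finset.mem_powersetCard] at he he'
        have key : ∀ e₁ ⊆ Q₂ \ s, ((s \ t) ∪ e₁) ∩ (Q₂ \ s) = e₁ := by
          intro e₁ he₁
          ext x
          simp only [Finset.mem_inter, Finset.mem_union, Finset.mem_sdiff]
          constructor
          · rintro ⟨h1 | h1, h2⟩
            · exact absurd h1.1 h2.2
            · exact h1
          · intro h1
            exact ⟨Or.inr h1, Finset.mem_sdiff.1 (he₁ h1)⟩
        rw [← key e he.1, ← key e' he'.1]
        show (s \ t ∪ e) ∩ _ = (s \ t ∪ e') ∩ _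
        have h' : s \ t ∪ e = s \ t ∪ e' := h
        rw [h']
      · have h1 : ∀ e ∈ Finset.powersetCard 2 (Q₂ \ s), pr (s \ t) * K ^ 2 ≤ pr ((s \ t) ∪ e) := by
          intro e he
          rw [Finset.mem_powersetCard] at he
          rw [pr_union (hdj e he.1)]
          exact Nat.mul_le_mul_left _ (hpre e (he.1.trans Finset.sdiff_subset) he.2).1
        have h2 := Finset.card_nsmul_le_sum _ _ _ h1
        refine le_trans ?_ h2
        rw [Finset.card_powersetCard, smul_eq_mul, ← pr_sdiff hts]
        calc pr (s \ t) * pr t ≤ pr (s \ t) * (4 * K ^ 2 * (2 * K)) := Nat.mul_le_mul_left _ ht2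
          _ = (8 * K) * (pr (s \ t) * K ^ 2) := by ring
          _ ≤ _ := Nat.mul_le_mul_right _ hch
    · -- many primes are present
      push Not at hcase
      have hcase' : Q₂.card ≤ 2 * (Q₂ ∩ s).card := by
        have := Finset.card_sdiff_add_card_inter Q₂ s
        omega
      obtain ⟨hch, hc3⟩ := hlarge (Q₂ ∩ s) Finset.inter_subset_left hcase'
      have hmiss : (N \ s).Nonempty := by
        rw [Finset.sdiff_nonempty]
        intro h
        exact hsne (Finset.Subset.antisymm hs h)
      obtain ⟨w, hw, hwmax⟩ := (N \ s).exists_max_image (fun x => x) hmiss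
      have hwN := (Finset.mem_sdiff.1 hw).1
      have hws := (Finset.mem_sdiff.1 hw).2
      by_cases hwK : K ≤ w
      · refine hfam s hs (Finset.powersetCard 2 (Q₂ ∩ s)) (fun e => insert w (s \ e)) ?_ ?_ ?_
        · intro e he
          rw [Finset.mem_powersetCard] at he
          have he2 : e ⊆ Q₂ := he.1.trans Finset.inter_subset_left
          have hes : e ⊆ s := he.1.trans Finset.inter_subset_right
          have hwse : w ∉ s \ e := fun h => hws (Finset.mem_sdiff.1 h).1
          apply hmemT s hs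
          · apply Finset.insert_subset hwN
            exact Finset.sdiff_subset.trans hs
          · rw [pr_insert hwse, ← pr_sdiff hes, mul_comm]
            apply Nat.mul_lt_mul_of_pos_left _ (hpos _ (Finset.sdiff_subset.trans hs))
            have h1 := (hpre e he2 he.2).1
            have h2 := hlt w hwN
            nlinarith
          · have h1 : ((Q₂ ∩ s) \ e).Nonempty := by
              rw [← Finset.card_pos, Finset.card_sdiff_of_subset he.1]
              omega
            obtain ⟨q, hq⟩ := h1
            rw [Finset.mem_sdiff, Finset.mem_inter] at hq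
            exact ⟨q, Finset.mem_insert_of_mem (Finset.mem_sdiff.2 ⟨hq.1.2, hq.2⟩), hq.1.1⟩
        · intro e he e' he' h
          rw [Finset.mem_powersetCard] at he he'
          have key : ∀ e₁ ⊆ Q₂ ∩ s, s \ (insert w (s \ e₁)) = e₁ := by
            intro e₁ he₁
            ext x
            simp only [Finset.mem_sdiff, Finset.mem_insert]
            constructor
            · rintro ⟨h1, h2⟩
              push Not at h2
              exact h2.2 h1
            · intro h1
              have h3 := Finset.mem_inter.1 (he₁ h1)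
              refine ⟨h3.2, ?_⟩
              rintro (rfl | h4)
              · exact hws h3.2
              · exact h4.2 h1
          have h' : insert w (s \ e) = insert w (s \ e') := h
          rw [← key e he.1, ← key e' he'.1, h']
        · have h1 : ∀ e ∈ Finset.powersetCard 2 (Q₂ ∩ s),
              w * pr s ≤ (pr (insert w (s \ e))) * (4 * K ^ 2) := by
            intro e he
            rw [Finset.mem_powersetCard] at he
            have he2 : e ⊆ Q₂ := he.1.trans Finset.inter_subset_left
            have hes : e ⊆ s := he.1.trans Finset.inter_subset_right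
            have hwse : w ∉ s \ e := fun h => hws (Finset.mem_sdiff.1 h).1
            rw [pr_insert hwse, ← pr_sdiff hes, mul_assoc]
            apply Nat.mul_le_mul_left
            exact Nat.mul_le_mul_left _ (hpre e he2 he.2).2
          have h2 := Finset.card_nsmul_le_sum _ _ _ h1
          rw [Finset.card_powersetCard, smul_eq_mul, ← Finset.sum_mul] at h2
          have h3 : pr s * (4 * K ^ 2) ≤
              (∑ e ∈ Finset.powersetCard 2 (Q₂ ∩ s), pr (insert w (s \ e))) * (4 * K ^ 2) := by
            refine le_trans ?_ h2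
            calc pr s * (4 * K ^ 2) ≤ pr s * (8 * K ^ 2) := by gcongr; norm_num
              _ = (8 * K) * (K * pr s) := by ring
              _ ≤ _ := Nat.mul_le_mul hch (Nat.mul_le_mul_right _ hwK)
          exact Nat.le_of_mul_le_mul_right h3 (by positivity)
      · push Not at hwK
        have hin : ∀ q ∈ N.filter (fun q => w < q), q ∈ s := by
          intro q hq
          rw [Finset.mem_filter] at hq
          by_contra hqs
          have := hwmax q (Finset.mem_sdiff.2 ⟨hq.1, hqs⟩)
          omega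
        have hrel : ∀ q ∈ N.filter (fun q => w < q),
            q * pr (insert w (s.erase q)) = w * pr s := by
          intro q hq
          have hwse : w ∉ s.erase q := fun h => hws (Finset.mem_erase.1 h).2
          rw [pr_insert hwse, ← pr_erase (hin q hq)]
          ring
        refine hfam s hs (N.filter (fun q => w < q)) (fun q => insert w (s.erase q)) ?_ ?_ ?_
        · intro q hq
          have hqs := hin q hq
          have hqw := (Finset.mem_filter.1 hq).2
          apply hmemT s hs
          · apply Finset.insert_subset hwN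
            exact (Finset.erase_subset _ _).trans hs
          · have h1 := hrel q hq
            by_contra hcon
            push Not at hcon
            have h2 : q * pr s ≤ q * pr (insert w (s.erase q)) := Nat.mul_le_mul_left _ hcon
            rw [h1] at h2
            have h3 := Nat.le_of_mul_le_mul_right h2 (hpos s hs)
            omega
          · have h1 : ((Q₂ ∩ s).erase q).Nonempty := by
              rw [← Finset.card_pos]
              have := Finset.pred_card_le_card_erase (s := Q₂ ∩ s) (a := q)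
              omega
            obtain ⟨x, hx⟩ := h1
            rw [Finset.mem_erase, Finset.mem_inter] at hx
            exact ⟨x, Finset.mem_insert_of_mem (Finset.mem_erase.2 ⟨hx.1, hx.2.2⟩), hx.2.1⟩
        · intro q hq q' hq' h
          by_contra hne
          have h' : insert w (s.erase q) = insert w (s.erase q') := h
          have h1 : q ∈ insert w (s.erase q') :=
            Finset.mem_insert_of_mem (Finset.mem_erase.2 ⟨hne, hin q hq⟩)
          rw [← h'] at h1
          rw [Finset.mem_insert, Finset.mem_erase] at h1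
          rcases h1 with h1 | h1
          · have := (Finset.mem_filter.1 hq).2
            omega
          · exact h1.1 rfl
        · have h1 : ((∑ q ∈ N.filter (fun q => w < q), pr (insert w (s.erase q)) : ℕ) : ℝ) =
              (w : ℝ) * pr s * ∑ q ∈ N.filter (fun q => w < q), (1 : ℝ) / q := by
            push_cast
            rw [Finset.mul_sum]
            apply Finset.sum_congr rfl
            intro q hq
            have hq0 : (q : ℝ) ≠ 0 := by
              have := (hp q (Finset.mem_filter.1 hq).1).pos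
              positivity
            have h2 : (q : ℝ) * pr (insert w (s.erase q)) = w * pr s := by
              exact_mod_cast hrel q hq
            field_simp
            linarith
          have h2 := htail w hwN hwK
          have hw0 : (0 : ℝ) < w := by exact_mod_cast (hp w hwN).pos
          have h3 : (pr s : ℝ) ≤
              ((∑ q ∈ N.filter (fun q => w < q), pr (insert w (s.erase q)) : ℕ) : ℝ) := by
            rw [h1]
            calc (pr s : ℝ) = w * pr s * (1 / w) := by field_simp
              _ ≤ _ := by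
                apply mul_le_mul_of_nonneg_left h2
                positivity
          exact_mod_cast h3
  -- the sum over `S₀` is small
  have hprNbig : 64 * K ^ 6 ≤ pr N := by
    have h1 : K ^ Q.card ≤ pr Q := Finset.pow_card_le_prod _ _ _ hQlo
    have h2 : K ^ 8 ≤ K ^ Q.card := Nat.pow_le_pow_right (by omega) (by omega)
    have h3 := hprle Q hQN
    have h4 : 64 * K ^ 6 ≤ K ^ 8 := by
      calc 64 * K ^ 6 ≤ (K * K) * K ^ 6 := Nat.mul_le_mul_right _ (by nlinarith)
        _ = K ^ 8 := by ring
    omega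
  have hS₀N : ∀ s ∈ S₀, s ⊆ N := fun s hs => (hS₀ s hs).1.trans (hQ₁.trans hQN)
  have hS₀sum : ∑ s ∈ S₀, pr s ≤ 64 * K ^ 6 := by
    have h1 : S₀.card ≤ 8 * K ^ 3 := by
      have : S₀.card ≤ (Finset.range (8 * K ^ 3)).card := by
        apply Finset.card_le_card_of_injOn pr
        · intro s hs
          rw [Finset.coe_range, Set.mem_Iio]
          exact (hS₀ s hs).2
        · intro s hs t ht h
          exact pr_inj (hprN s (hS₀N s hs)) (hprN t (hS₀N t ht)) h
      rwa [Finset.card_range] at this
    have h2 := Finset.sum_le_card_nsmul S₀ pr (8 * K ^ 3) (fun s hs => (hS₀ s hs).2.le)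
    rw [smul_eq_mul] at h2
    calc ∑ s ∈ S₀, pr s ≤ S₀.card * (8 * K ^ 3) := h2
      _ ≤ (8 * K ^ 3) * (8 * K ^ 3) := Nat.mul_le_mul_right _ h1
      _ = _ := by ring
  have hS₀sub : S₀ ⊆ N.powerset.erase N := by
    intro s hs
    rw [Finset.mem_erase, Finset.mem_powerset]
    refine ⟨?_, hS₀N s hs⟩
    rintro rfl
    have h1 := (hS₀ _ hs).2
    have h2 : 8 * K ^ 3 ≤ 64 * K ^ 6 := by
      have : K ^ 3 ≤ K ^ 6 := Nat.pow_le_pow_right (by omega) (by norm_num)
      omega
    omega
  have hTsum : ∑ s ∈ T, pr s + ∑ s ∈ S₀, pr s + pr N = ∏ p ∈ N, (1 + p) := by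
    rw [hT, Finset.sum_sdiff hS₀sub, Finset.prod_one_add]
    exact Finset.sum_erase_add _ _ (Finset.mem_powerset_self N)
  obtain ⟨A, hA, t₀, h1, h2, h3⟩ := greedy pr a b (by omega) T.card T rfl (by
    intro d hd
    have hd' := hd
    rw [hT, Finset.mem_sdiff, Finset.mem_erase, Finset.mem_powerset] at hd'
    by_cases hc : 4 * K ^ 2 < pr d
    · have := hgap d hd'.1.2 hd'.1.1 hc
      omega
    · omega) (pr N) (by omega) (by omega)
  obtain ⟨A₀, hA₀, hA₀s⟩ := hfill t₀ h1 h2
  refine ⟨A₀ ∪ A, ?_, ?_, ?_⟩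
  · intro s hs
    rw [Finset.mem_union] at hs
    rw [Finset.mem_powerset]
    rcases hs with hs | hs
    · exact hS₀N s (hA₀ hs)
    · have := hA hs
      rw [hT, Finset.mem_sdiff, Finset.mem_erase, Finset.mem_powerset] at this
      exact this.1.2
  · intro hs
    rw [Finset.mem_union] at hs
    rcases hs with hs | hs
    · have := hS₀sub (hA₀ hs)
      exact (Finset.mem_erase.1 this).1 rfl
    · have := hA hs
      rw [hT, Finset.mem_sdiff, Finset.mem_erase, Finset.mem_powerset] at this
      exact this.1.1 rfl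
  · rw [Finset.sum_union, hA₀s, ← h3]
    rw [Finset.disjoint_left]
    intro s hs hs'
    have := hA hs'
    rw [hT, Finset.mem_sdiff] at this
    exact this.2 (hA₀ hs)

end Pool.Agent.Helper83.Weird
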