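import Pool.Agent.Helper83.Weird.Comb

/-!
# The seed: subset sums of products of one or three primes cover a long interval
-/

set_option autoImplicit false

namespace Pool.Agent.Helper83.Weird

open Finset

/-- product of the elements -/
def pr (s : Finset ℕ) : ℕ := ∏ p ∈ s, p

theorem pr_inj {s t : Finset ℕ} (hs : ∀ p ∈ s, p.Prime) (ht : ∀ p ∈ t, p.Prime)
    (h : pr s = pr t) : s = t := by
  have h1 := Nat.primeFactors_prod hs
  have h2 := Nat.primeFactors_prod ht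
  unfold pr at h
  rw [← h1, ← h2, h]

theorem pr_singleton (u : ℕ) : pr {u} = u := by simp [pr]

theorem pow_le_choose_three (n : ℕ) : (n - 2) ^ 3 ≤ 6 * n.choose 3 := by
  have h := Nat.pow_le_choose (α := ℚ) 3 n
  have e : n + 1 - 3 = n - 2 := by omega
  rw [e, show ((Nat.factorial 3 : ℕ) : ℚ) = 6 by norm_num [Nat.factorial], div_le_iff₀ (by norm_num)] at h
  have h2 : (((n - 2) ^ 3 : ℕ) : ℚ) ≤ ((6 * n.choose 3 : ℕ) : ℚ) := by
    push_cast
    linarith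
  exact_mod_cast h2

theorem seed (K L₁ : ℕ) (Q₁ : Finset ℕ) (hpr : ∀ q ∈ Q₁, q.Prime) (hlo : ∀ q ∈ Q₁, K ≤ q)
    (hhi : ∀ q ∈ Q₁, q < 2 * K) (hcard : K ≤ L₁ * (Q₁.card - 2)) (hL : 1 ≤ L₁)
    (hKL : 1769472 * L₁ ^ 9 ≤ K) :
    ∃ (S₀ : Finset (Finset ℕ)) (a b : ℕ), (∀ s ∈ S₀, s ⊆ Q₁ ∧ pr s < 8 * K ^ 3) ∧
      a ≤ ∑ s ∈ S₀, pr s ∧ a + 4 * K ^ 2 ≤ b ∧
      ∀ T, a ≤ T → T ≤ b → ∃ A ⊆ S₀, ∑ s ∈ A, pr s = T := by
  classical
  obtain ⟨D, hD⟩ : ∃ D, D = Finset.powersetCard 3 Q₁ := ⟨_, rfl⟩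
  have hL9 : 1 ≤ L₁ ^ 9 := Nat.one_le_pow _ _ hL
  have hL3 : 1 ≤ L₁ ^ 3 := Nat.one_le_pow _ _ hL
  have hL39 : L₁ ^ 3 ≤ L₁ ^ 9 := Nat.pow_le_pow_right hL (by norm_num)
  have hK1 : 1769472 ≤ K := le_trans (by omega) hKL
  have hK0 : 0 < K := by omega
  have hchoose : (Q₁.card - 2) ^ 3 ≤ 6 * D.card := by
    rw [hD, Finset.card_powersetCard]
    exact pow_le_choose_three _
  have hK3 : K ^ 3 ≤ 6 * L₁ ^ 3 * D.card := by
    calc K ^ 3 ≤ (L₁ * (Q₁.card - 2)) ^ 3 := Nat.pow_le_pow_left hcard 3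
      _ = L₁ ^ 3 * (Q₁.card - 2) ^ 3 := by ring
      _ ≤ L₁ ^ 3 * (6 * D.card) := Nat.mul_le_mul_left _ hchoose
      _ = _ := by ring
  have hmemD : ∀ s ∈ D, s ⊆ Q₁ ∧ s.card = 3 := by
    intro s hs
    rw [hD, Finset.mem_powersetCard] at hs
    exact hs
  have hwY : ∀ s ∈ D, pr s < 8 * K ^ 3 := by
    intro s hs
    obtain ⟨h1, h2⟩ := hmemD s hs
    have h3 : pr s ≤ (2 * K - 1) ^ s.card := by
      apply Finset.prod_le_pow_card
      intro x hx
      have := hhi x (h1 hx)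
      omega
    rw [h2] at h3
    have h4 : (2 * K - 1) ^ 3 < (2 * K) ^ 3 := Nat.pow_lt_pow_left (by omega) (by norm_num)
    calc pr s ≤ _ := h3
      _ < (2 * K) ^ 3 := h4
      _ = 8 * K ^ 3 := by ring
  have hprD : ∀ s ∈ D, ∀ p ∈ s, p.Prime := fun s hs p hp => hpr p ((hmemD s hs).1 hp)
  obtain ⟨G, hG⟩ : ∃ G, G = 192 * L₁ ^ 3 := ⟨_, rfl⟩
  have hG0 : 0 < G := by rw [hG]; omega
  have hD4 : 4 ≤ D.card := by
    by_contra hcon
    push Not at hcon
    have h1 : K ^ 3 ≤ 6 * L₁ ^ 3 * 4 := hK3.trans (Nat.mul_le_mul_left _ hcon.le)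
    have h2 : K ≤ K ^ 3 := Nat.le_self_pow (by norm_num) K
    omega
  have hM : 2 * (8 * K ^ 3 / G + 1) ≤ D.card := by
    have h1 : (8 * K ^ 3 / G) * G ≤ 8 * K ^ 3 := Nat.div_mul_le_self _ _
    have h2 : 4 * (8 * K ^ 3 / G) ≤ D.card := by
      have h3 : 4 * (8 * K ^ 3 / G) * G ≤ D.card * G := by
        calc 4 * (8 * K ^ 3 / G) * G = 4 * ((8 * K ^ 3 / G) * G) := by ring
          _ ≤ 4 * (8 * K ^ 3) := Nat.mul_le_mul_left _ h1
          _ = 32 * K ^ 3 := by ring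
          _ ≤ 32 * (6 * L₁ ^ 3 * D.card) := Nat.mul_le_mul_left _ hK3
          _ = D.card * G := by rw [hG]; ring
      exact Nat.le_of_mul_le_mul_right h3 hG0
    omega
  obtain ⟨g, hg0, hgG, J, s, t, hJ, hcardJ⟩ := pairs D pr
    (fun x hx y hy h => pr_inj (hprD x hx) (hprD y hy) h) (8 * K ^ 3) G hG0 hwY hM
  have hJbig : 4 * K ^ 2 ≤ J.card := by
    have h1 : K ^ 3 ≤ 442368 * L₁ ^ 9 * J.card := by
      calc K ^ 3 ≤ 6 * L₁ ^ 3 * D.card := hK3
        _ ≤ 6 * L₁ ^ 3 * (2 * G * (G * J.card)) := Nat.mul_le_mul_left _ hcardJ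
        _ = 442368 * L₁ ^ 9 * J.card := by rw [hG]; ring
    have h2 : 1769472 * L₁ ^ 9 * K ^ 2 ≤ K ^ 3 := by
      calc 1769472 * L₁ ^ 9 * K ^ 2 ≤ K * K ^ 2 := Nat.mul_le_mul_right _ hKL
        _ = K ^ 3 := by ring
    have h3 : (442368 * L₁ ^ 9) * (4 * K ^ 2) ≤ (442368 * L₁ ^ 9) * J.card := by
      calc (442368 * L₁ ^ 9) * (4 * K ^ 2) = 1769472 * L₁ ^ 9 * K ^ 2 := by ring
        _ ≤ _ := h2.trans h1
    exact Nat.le_of_mul_le_mul_left h3 (by positivity)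
  -- auxiliary primes
  have hQG : G ≤ Q₁.card := by
    by_contra hcon
    push Not at hcon
    have h1 : L₁ * (Q₁.card - 2) ≤ L₁ * G := Nat.mul_le_mul_left _ (by omega)
    have h2 : L₁ * G = 192 * L₁ ^ 4 := by rw [hG]; ring
    have h3 : L₁ ^ 4 ≤ L₁ ^ 9 := Nat.pow_le_pow_right hL (by norm_num)
    omega
  obtain ⟨U, hU, hUc⟩ := Finset.exists_subset_card_eq (s := Q₁) (n := g - 1) (by omega)
  have hKG : G ≤ K := by omega
  have hcop : ∀ u ∈ U, Nat.Coprime u g := by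
    intro u hu
    have hup := hpr u (hU hu)
    have hul := hlo u (hU hu)
    rw [Nat.Prime.coprime_iff_not_dvd hup]
    intro hd
    have := Nat.le_of_dvd hg0 hd
    omega
  have hUsum : ∑ u ∈ U, u ≤ (g - 1) * (2 * K) := by
    have := Finset.sum_le_card_nsmul U (fun u => u) (2 * K) (fun u hu => (hhi u (hU hu)).le)
    rw [hUc, smul_eq_mul] at this
    exact this
  -- injectivity
  have hsinj : ∀ j ∈ J, ∀ j' ∈ J, s j = s j' → j = j' := by
    intro j hj j' hj' h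
    have h1 := (hJ j hj).2.2.2.1
    have h2 := (hJ j' hj').2.2.2.1
    rw [← h1, ← h2, h]
  have htinj : ∀ j ∈ J, ∀ j' ∈ J, t j = t j' → j = j' := by
    intro j hj j' hj' h
    have h1 := (hJ j hj).2.2.2.2
    have h2 := (hJ j' hj').2.2.2.2
    rw [← h1, ← h2, h]
  have hstne : ∀ j ∈ J, ∀ j' ∈ J, s j = t j' → j = j' := by
    intro j hj j' hj' h
    have h1 := (hJ j hj).2.2.2.1
    have h2 := (hJ j' hj').2.2.2.2
    rw [← h1, ← h2, h]
  have hsneq : ∀ j ∈ J, s j ≠ t j := by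
    intro j hj h
    have h1 := (hJ j hj).2.2.1
    rw [h] at h1
    omega
  have hsingle : ∀ A : Finset ℕ, ∑ x ∈ A.image (fun u => ({u} : Finset ℕ)), pr x = ∑ u ∈ A, u := by
    intro A
    rw [Finset.sum_image (fun x _ y _ h => Finset.singleton_injective h)]
    exact Finset.sum_congr rfl (fun u _ => pr_singleton u)
  have hsum : ∀ J' ⊆ J, ∀ A : Finset ℕ,
      ∑ x ∈ (J'.image t ∪ (J \ J').image s) ∪ A.image (fun u => ({u} : Finset ℕ)), pr x =
        (∑ j ∈ J, pr (s j)) + g * J'.card + ∑ u ∈ A, u := by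
    intro J' hJ' A
    rw [Finset.sum_union, Finset.sum_union, hsingle, Finset.sum_image, Finset.sum_image]
    · have e1 : ∑ j ∈ J', pr (t j) = ∑ j ∈ J', (pr (s j) + g) :=
        Finset.sum_congr rfl (fun j hj => (hJ j (hJ' hj)).2.2.1)
      rw [e1, Finset.sum_add_distrib, Finset.sum_const, smul_eq_mul]
      have e2 := Finset.sum_sdiff (f := fun j => pr (s j)) hJ'
      rw [← e2]
      ring
    · intro x hx y hy h
      simp only [Finset.coe_sdiff, Set.mem_sdiff, Finset.mem_coe] at hx hy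
      exact hsinj x hx.1 y hy.1 h
    · intro x hx y hy h
      exact htinj x (hJ' hx) y (hJ' hy) h
    · rw [Finset.disjoint_left]
      intro x hx hx'
      rw [Finset.mem_image] at hx hx'
      obtain ⟨j, hj, rfl⟩ := hx
      obtain ⟨j', hj', h⟩ := hx'
      rw [Finset.mem_sdiff] at hj'
      have := hstne j' hj'.1 j (hJ' hj) h
      rw [this] at hj'
      exact hj'.2 hj
    · rw [Finset.disjoint_left]
      intro x hx hx'
      rw [Finset.mem_image] at hx'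
      obtain ⟨u, hu, rfl⟩ := hx'
      rw [Finset.mem_union, Finset.mem_image, Finset.mem_image] at hx
      have hcard1 : (({u} : Finset ℕ)).card = 1 := Finset.card_singleton u
      rcases hx with ⟨j, hj, h⟩ | ⟨j, hj, h⟩
      · have := (hmemD _ (hJ j (hJ' hj)).2.1).2
        rw [h] at this
        omega
      · rw [Finset.mem_sdiff] at hj
        have := (hmemD _ (hJ j hj.1).1).2
        rw [h] at this
        omega
  obtain ⟨S₀, hS₀⟩ : ∃ S₀, S₀ = (J.image t ∪ J.image s) ∪ U.image (fun u => ({u} : Finset ℕ)) :=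
    ⟨_, rfl⟩
  have hsubfam : ∀ J' ⊆ J, ∀ A ⊆ U,
      (J'.image t ∪ (J \ J').image s) ∪ A.image (fun u => ({u} : Finset ℕ)) ⊆ S₀ := by
    intro J' hJ' A hA
    rw [hS₀]
    apply Finset.union_subset_union
    · apply Finset.union_subset_union
      · exact Finset.image_subset_image hJ'
      · exact Finset.image_subset_image Finset.sdiff_subset
    · exact Finset.image_subset_image hA
  refine ⟨S₀, (∑ j ∈ J, pr (s j)) + ∑ u ∈ U, u, (∑ j ∈ J, pr (s j)) + g * J.card, ?_, ?_, ?_, ?_⟩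
  · intro x hx
    rw [hS₀, Finset.mem_union, Finset.mem_union, Finset.mem_image, Finset.mem_image,
      Finset.mem_image] at hx
    rcases hx with (⟨j, hj, rfl⟩ | ⟨j, hj, rfl⟩) | ⟨u, hu, rfl⟩
    · exact ⟨(hmemD _ (hJ j hj).2.1).1, hwY _ (hJ j hj).2.1⟩
    · exact ⟨(hmemD _ (hJ j hj).1).1, hwY _ (hJ j hj).1⟩
    · refine ⟨Finset.singleton_subset_iff.2 (hU hu), ?_⟩
      rw [pr_singleton]
      have h1 := hhi u (hU hu)
      have h2 : K ≤ K ^ 3 := Nat.le_self_pow (by norm_num) K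
      omega
  · have h1 := hsum ∅ (Finset.empty_subset _) U
    rw [Finset.card_empty, Nat.mul_zero, Nat.add_zero] at h1
    rw [← h1]
    exact Finset.sum_le_sum_of_subset (hsubfam ∅ (Finset.empty_subset _) U (Finset.Subset.refl _))
  · have h1 : (g - 1) * (2 * K) + 4 * K ^ 2 ≤ g * J.card := by
      have h2 : 2 * K ≤ J.card := by nlinarith
      obtain ⟨g', rfl⟩ : ∃ g', g = g' + 1 := ⟨g - 1, by omega⟩
      rw [Nat.add_sub_cancel]
      calc g' * (2 * K) + 4 * K ^ 2 ≤ g' * J.card + J.card :=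
            Nat.add_le_add (Nat.mul_le_mul_left _ h2) hJbig
        _ = (g' + 1) * J.card := by ring
    omega
  · intro T hT1 hT2
    obtain ⟨c, hc⟩ : ∃ c, T = (∑ j ∈ J, pr (s j)) + c := ⟨T - ∑ j ∈ J, pr (s j), by omega⟩
    obtain ⟨A, hA, hAc⟩ := residues g hg0 U hcop (by omega) c
    have hAU : ∑ u ∈ A, u ≤ ∑ u ∈ U, u := Finset.sum_le_sum_of_subset hA
    have hle : ∑ u ∈ A, u ≤ c := by omega
    have hdvd : g ∣ c - ∑ u ∈ A, u := (Nat.modEq_iff_dvd' hle).1 hAc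
    obtain ⟨j₀, hj₀⟩ := hdvd
    have hj₀le : j₀ ≤ J.card := by
      have : g * j₀ ≤ g * J.card := by omega
      exact Nat.le_of_mul_le_mul_left this hg0
    obtain ⟨J', hJ', hJ'c⟩ := Finset.exists_subset_card_eq (s := J) (n := j₀) hj₀le
    refine ⟨_, hsubfam J' hJ' A hA, ?_⟩
    rw [hsum J' hJ' A, hJ'c, hc]
    omega

end Pool.Agent.Helper83.Weird
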